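import Pool.Agent.Y882.GX.All

/-!
# The Goldbach-Knjzek problem for almost primes, all dyadic windows of `(√N, N / 2]` at once

For all but few even `N ≤ X` and ALL `x` with `N ^ θ ≤ x ≤ N / 2` the window `x / 4 < p < x`
contains the expected number of primes `p` (up to a constant) such that `N - p` has at most two or
three prime factors.
-/

set_option autoImplicit false

open Finset Filter

namespace Pool.Agent.Results.MP_73b532_nt.EveryScale

/-- the variable part of the singular series of the Goldbach problem -/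
noncomputable def sing (N : ℕ) : ℝ :=
  ∏ p ∈ N.primeFactors.erase 2, (((p : ℝ) - 1) / ((p : ℝ) - 2))

open Classical in
/-- The number of the primes `p < N` with `x / 4 < p < x` such that `N - p` has at most `r` prime
factors (counted with multiplicity), all of them at least `N ^ ζ / 2`. -/
noncomputable def window (r : ℕ) (ζ x : ℝ) (N : ℕ) : ℕ :=
  ((range N).filter (fun p : ℕ => p.Prime ∧ x / 4 < p ∧ (p : ℝ) < x ∧
    (N - p).primeFactorsList.length ≤ r ∧
    ∀ q : ℕ, q.Prime → q ∣ (N - p) → (N : ℝ) ^ ζ / 2 ≤ q)).card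

open Classical in
/-- **All scales at once.** Let `r = 3`, `1 / 2 ≤ τ < 1`, `ζ = 2 τ / 5`, or `r = 2`,
`6 / 11 ≤ τ < 1`, `ζ = τ / 4`, and `0 < θ ≤ 1`. There are `δ, C > 0` such that all but
`C X ^ (2 τ - θ + ε)` of the even `N ≤ X` have for EVERY real `x` with `N ^ θ ≤ x ≤ N / 2` at least
`δ sing N x / (log N) ^ 2` primes `p` with `x / 4 < p < x` such that `N - p` has at most `r` prime
factors, all of them at least `N ^ ζ / 2`. -/
theorem result (r : ℕ) (θ τ ζ ε : ℝ)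
    (hpar : (r = 3 ∧ 1 / 2 ≤ τ ∧ ζ = 2 / 5 * τ) ∨ (r = 2 ∧ 6 / 11 ≤ τ ∧ ζ = τ / 4))
    (hτ : τ < 1) (hθ0 : 0 < θ) (hθ1 : θ ≤ 1) (hε : 0 < ε) :
    ∃ δ C : ℝ, 0 < δ ∧ 0 < C ∧ ∀ X : ℕ, 1 ≤ X →
      (((Icc 1 X).filter (fun N : ℕ => Even N ∧ ∃ x : ℝ, (N : ℝ) ^ θ ≤ x ∧ x ≤ N / 2 ∧
        (window r ζ x N : ℝ) < δ * sing N * (x / Real.log N ^ 2))).card : ℝ) ≤
      C * (X : ℝ) ^ (2 * τ - θ + ε) :=
  Pool.Agent.Y882.GX.everyScale r θ τ ζ ε hpar hτ hθ0 hθ1 hε

end Pool.Agent.Results.MP_73b532_nt.EveryScale
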