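import Pool.Agent.H225.GX3

/-!
# Goldbach partitions with a summand in (√N, N/2) and exact neighbourhoods of both summands

Let `b ≥ 2` be a base, `N ≤ b^{DK}` ANY number and `[M, M + b^K)` any block of integers inside the interval `(√N, N / 2)`.
Consider the representations `N = m + (N - m)`, `m = M + n`, where the digits of `n < b^K` are restricted:
the `i`-th digit belongs to a set `A i`, where the sets `A i` are arbitrary, depend on the place `i < K`,
and have the only property that the number `∏ |A i|` of these `n` is at least `e^{-δK} b^K`, where the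
constant `δ > 0` does not depend on `b`.

Let `H` and `G` be ANY sets of integers in `[0, c K]`, together of `k` elements, such that for each prime `p`
there is an `m` for which `p` divides none of the numbers `m + h`, `N - m + g`.  Then the sieve product `V`
is at least `κ / K^k`, and (if the last digit can be chosen such that these numbers are prime to `b`) for at
least `κ V ∏ |A i|` of these `n` with `√N < m < N / 2` the numbers `m + h`, `h ∈ H`, and `N - m + g`, `g ∈ G`, have at
most `r` prime factors, all larger than `b^{K/r}`, while ALL other numbers `m + j` and ALL other numbers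
`N - m + j`, `0 ≤ j ≤ c K`, have a prime factor `≤ b^{K/r}`: BOTH summands have prescribed exact
neighbourhoods on the scale of the mean distance.  For at most `C V ∏ |A i|` of these `n` the numbers `m + h`,
`N - m + g` are all prime.  The constants do not depend on `N`, `M`, `H`, `G`.

The method is a Brun–Hooley sieve with weights, whose level of distribution is obtained from the Fourier
transform of the set of the integers with restricted digits at rationals (large sieve in blocks of
digits), see `Pool/Agent/Y816/PD`; the other numbers are excluded by the upper bound for patterns with one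
more element on one of the two sides and an average of the sieve products, in which the coincidences
`p ∣ N + g + j` of the two sides are controlled uniformly in `N`, see `Pool/Agent/H225/GX2`, `GX3`.
-/

set_option autoImplicit false

namespace Pool.Agent.Results.MP_73b532_nt.ExactNeighbourhoods

open Finset Filter

/-- `p` divides one of the numbers `y + h`, `N + g - y`, where `h ∈ H`, `g ∈ G`. -/
def Bad (N : ℕ) (H G : Finset ℕ) (p y : ℕ) : Prop :=
  (∃ h ∈ H, p ∣ y + h) ∨ ∃ g ∈ G, y ≡ N + g [MOD p]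

/-- No prime is bad for all `y`. -/
def Admissible (N : ℕ) (H G : Finset ℕ) : Prop := ∀ p : ℕ, p.Prime → ∃ y : ℕ, ¬ Bad N H G p y

open Classical in
/-- The number of the `y` modulo `p` for which `p` is bad. -/
noncomputable def nu (N : ℕ) (H G : Finset ℕ) (p : ℕ) : ℕ :=
  ((range p).filter (fun y : ℕ => Bad N H G p y)).card

/-- The product of `1 - nu p / p` over the primes `p ≤ x`. -/
noncomputable def V (N : ℕ) (H G : Finset ℕ) (x : ℕ) : ℝ :=
  ∏ p ∈ (Icc 1 x).filter Nat.Prime, (1 - (nu N H G p : ℝ) / p)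

open Classical in
/-- The number of the `n < b ^ K` in `T`, whose `i`-th digit in base `b` belongs to `A i` for all
`i < K`. -/
noncomputable def count (b K : ℕ) (A : ℕ → Finset ℕ) (T : Set ℕ) : ℕ :=
  ((range (b ^ K)).filter (fun n => (∀ i < K, n / b ^ i % b ∈ A i) ∧ n ∈ T)).card

/-- The number of choices of the digits. -/
noncomputable def choices (K : ℕ) (A : ℕ → Finset ℕ) : ℝ := ∏ i ∈ range K, ((A i).card : ℝ)

/-- All prime factors of `m` are larger than `z ^ (1 / r)`. -/
def Rough (r z m : ℕ) : Prop := ∀ p : ℕ, p.Prime → p ∣ m → z < p ^ r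

/-- `m` has at most `r` prime factors, all larger than `z ^ (1 / r)`. -/
def AlmostPrime (r z m : ℕ) : Prop := Rough r z m ∧ m.primeFactorsList.length ≤ r

open Pool.Agent.Y816.PD (ND ND_sub)

/-- **Goldbach partitions with a summand in (√N, N/2) and exact neighbourhoods of both summands.** -/
theorem result (k D : ℕ) (hk : 1 ≤ k) :
    ∃ δ : ℝ, 0 < δ ∧ ∃ r₀ : ℕ, 2 ≤ r₀ ∧ ∀ r : ℕ, r₀ ≤ r → ∀ b : ℕ, 2 ≤ b →
      ∃ κ C c : ℝ, 0 < κ ∧ 0 < C ∧ 0 < c ∧ ∀ᶠ K : ℕ in atTop, ∀ M N : ℕ, N ≤ M ^ 2 → 2 * (M + b ^ K) ≤ N →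
        N ≤ b ^ (D * K) → ∀ H G : Finset ℕ, H.card + G.card = k →
        (∀ h ∈ H, (h : ℝ) ≤ c * K) → (∀ g ∈ G, (g : ℝ) ≤ c * K) → Admissible N H G →
        ∀ A : ℕ → Finset ℕ, (∀ i < K, A i ⊆ range b) →
        (b : ℝ) ^ K ≤ Real.exp (δ * K) * choices K A →
        κ / (K : ℝ) ^ k ≤ V N H G (b ^ K) ∧
        ((∃ e ∈ A 0, (∀ h ∈ H, (M + e + h).Coprime b) ∧ ∀ g ∈ G, (N + g - (M + e)).Coprime b) →
          (∃ e ∈ A (K - 1), e ≠ 0) →
          κ * choices K A * V N H G (b ^ K) ≤
            count b K A {n | (N < (M + n) ^ 2 ∧ 2 * (M + n) < N) ∧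
              (∀ h ∈ H, AlmostPrime r (b ^ K) (M + n + h)) ∧
              (∀ g ∈ G, AlmostPrime r (b ^ K) (N + g - (M + n))) ∧
              (∀ j : ℕ, (j : ℝ) ≤ c * K → j ∉ H → ¬ Rough r (b ^ K) (M + n + j)) ∧
              ∀ j : ℕ, (j : ℝ) ≤ c * K → j ∉ G → ¬ Rough r (b ^ K) (N + j - (M + n))}) ∧
        (count b K A {n | (∀ h ∈ H, (M + n + h).Prime) ∧ ∀ g ∈ G, (N + g - (M + n)).Prime} : ℝ) ≤
          C * choices K A * V N H G (b ^ K) := by
  obtain ⟨δ, hδ, r₀, hr₀, h⟩ := Pool.Agent.H225.GX.exact k D hk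
  refine ⟨δ, hδ, r₀, hr₀, fun r hr b hb => ?_⟩
  obtain ⟨κ, C, c, hκ, hC, hc, h1⟩ := h r hr b hb
  refine ⟨κ, C, c, hκ, hC, hc, ?_⟩
  filter_upwards [h1, eventually_ge_atTop 6] with K hK hK6 M N hM1 hM2 hN H G hHk hHc hGc hadm A hA hprod
  have hbK : 32 ≤ b ^ (K - 1) := by
    calc 32 = 2 ^ 5 := by norm_num
      _ ≤ 2 ^ (K - 1) := Nat.pow_le_pow_right (by norm_num) (by omega)
      _ ≤ b ^ (K - 1) := Nat.pow_le_pow_left hb _
  have hbK' : b ^ (K - 1) ≤ b ^ K := Nat.pow_le_pow_right (by omega) (by omega)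
  have h0 : M + 2 * b ^ K ≤ N := by
    omega
  obtain ⟨h2, h3, h4⟩ := hK M N (by omega) hN H G hHk hHc hGc hadm A hA hprod
  refine ⟨h2, fun hcop htop => (h3 hcop htop).trans (Nat.cast_le.2 (ND_sub fun n hn hn1 hn2 =>
    ⟨hn1, ?_, hn2.2⟩)), le_trans (Nat.cast_le.2 ?_) h4⟩
  · have h5 := hn2.1
    constructor
    · nlinarith
    · omega
  · refine ND_sub fun n hn hn1 hn2 => ⟨hn1, fun h hh p hp hpd => ?_, fun g hg p hp hpd => ?_⟩
    · have hpr : (M + n + h).Prime := hn2.1 h hh
      rw [(Nat.prime_dvd_prime_iff_eq hp hpr).1 hpd]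
      have h6 : (M + n + h) ^ 2 ≤ (M + n + h) ^ r := Nat.pow_le_pow_right hpr.pos (hr₀.trans hr)
      have h7 := hpr.two_le
      nlinarith
    · have hpr : (N + g - (M + n)).Prime := hn2.2 g hg
      rw [(Nat.prime_dvd_prime_iff_eq hp hpr).1 hpd]
      have h5 : n ≤ N + g - (M + n) := by omega
      have h6 : (N + g - (M + n)) ^ 2 ≤ (N + g - (M + n)) ^ r :=
        Nat.pow_le_pow_right hpr.pos (hr₀.trans hr)
      have h7 := hpr.two_le
      nlinarith

end Pool.Agent.Results.MP_73b532_nt.ExactNeighbourhoods
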