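import Pool.Agent.V11249.NP.Gold

/-!
# Arithmetic progressions in the set of the Goldbach partitions with a prime in `(√(2 n), n]`

For all `n` and all windows `(A, A + N]` inside `(√(2 n), n]`, consider the primes `p` in the window for which
`2 n - p` is prime. The number of these representations in the window
has the expected order of magnitude `N V` if and only if the number of the `k`-term arithmetic progressions with
differences up to `D` formed by them has the expected order of magnitude `N D V ^ k`, for all `D` between a power of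
`log N` and `N`; the constants depend only on `k`. The same holds for all sets of integers `m` such that `m` and
`2 n - m` have no prime factor `≤ N ^ κ` (Szemerédi's theorem relative to these sets, and its converse).
-/

set_option autoImplicit false

open Finset

namespace Pool.Agent.Results.MP_73b532_nt.ProgressionsOfRepresentations

/-- windows `(A, A + N]` inside the interval `(√(2 n), n]` -/
def Window (n A N : ℕ) : Prop := 2 * n ≤ A ^ 2 ∧ A + N ≤ n

/-- the primes `p` in `(A, A + N]` with `√(2 n) < p ≤ n` and `2 n - p` prime -/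
def G (n A N : ℕ) : Finset ℕ :=
  (Ioc A (A + N)).filter (fun p => p.Prime ∧ (2 * n - p).Prime ∧ 2 * n < p ^ 2 ∧ p ≤ n)

/-- the sieve product over the primes `p ≤ N ^ κ`: the factor is `1 - 1 / p` for the primes `p` dividing `M` and
`1 - 2 / p` for the others -/
noncomputable def V (M : ℕ) (κ : ℝ) (N : ℕ) : ℝ :=
  (∏ p ∈ (Icc 1 ⌊(N : ℝ) ^ κ⌋₊).filter (fun p => p.Prime ∧ p ∣ M), (1 - 1 / (p : ℝ))) *
    ∏ p ∈ (Icc 1 ⌊(N : ℝ) ^ κ⌋₊).filter (fun p => p.Prime ∧ ¬ p ∣ M), (1 - 2 / (p : ℝ))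

/-- neither `n` nor `M - n` has a prime factor `≤ N ^ κ` -/
def Rough (M : ℕ) (κ : ℝ) (N n : ℕ) : Prop :=
  ∀ p : ℕ, p.Prime → p ∣ n * (M - n) → (N : ℝ) ^ κ < p

open Classical in
/-- The number of the progressions `n, n + d, …, n + (k - 1) d` in `S` with `1 ≤ d ≤ D`. -/
noncomputable def AP (k D : ℕ) (S : Finset ℕ) : ℕ :=
  ((S ×ˢ Icc 1 D).filter (fun q => ∀ j < k, q.1 + j * q.2 ∈ S)).card

theorem eqG (n A N : ℕ) (h : Window n A N) :
    G n A N = (Ioc A (A + N)).filter (fun p => p.Prime ∧ (2 * n - p).Prime) := by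
  obtain ⟨h1, h2⟩ := h
  unfold G
  apply filter_congr
  intro p hp
  rw [mem_Ioc] at hp
  constructor
  · rintro ⟨a, b, -⟩
    exact ⟨a, b⟩
  · rintro ⟨a, b⟩
    refine ⟨a, b, lt_of_le_of_lt h1 (Nat.pow_lt_pow_left hp.1 (by norm_num)), by omega⟩

/-- For every `k ≥ 1`, with constants which do not depend on `n` and the window:
(1) for `κ > 0` a set `S` of integers `m` of the window with `m` and `2 n - m` free of prime factors `≤ N ^ κ`
contains at most `C N D V ^ k` progressions of length `k` with differences at most `D`;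
(2) it contains at least `c₀ N D V ^ k` of them if it has at least `δ N V` elements, and it has at least
`c₀ N V` elements if it contains at least `δ N D V ^ k` of them, for all `D` between `log ^ B N` and `N`;
(3), (4) the same for the set `G` (with `κ = 1/4` in `V`). -/
theorem result (k : ℕ) (hk : 1 ≤ k) :
    (∀ κ : ℝ, 0 < κ → ∃ C : ℝ, 0 < C ∧ ∃ B N₀ : ℕ, ∀ n N A D : ℕ, Window n A N →
      N₀ ≤ N → Real.log N ^ B ≤ D → ∀ S : Finset ℕ, S ⊆ Ioc A (A + N) → (∀ m ∈ S, Rough (2 * n) κ N m) →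
        (AP k D S : ℝ) ≤ C * (N * D * V (2 * n) κ N ^ k)) ∧
    (∀ κ δ : ℝ, 0 < κ → 0 < δ → ∃ c₀ : ℝ, 0 < c₀ ∧ ∃ B N₀ : ℕ, ∀ n N A D : ℕ, Window n A N →
      N₀ ≤ N → Real.log N ^ B ≤ D → D ≤ N → ∀ S : Finset ℕ, S ⊆ Ioc A (A + N) →
        (∀ m ∈ S, Rough (2 * n) κ N m) →
        (δ * (N * V (2 * n) κ N) ≤ S.card → c₀ * (N * D * V (2 * n) κ N ^ k) ≤ AP k D S) ∧
        (δ * (N * D * V (2 * n) κ N ^ k) ≤ AP k D S → c₀ * (N * V (2 * n) κ N) ≤ S.card)) ∧
    (∃ C : ℝ, 0 < C ∧ ∃ B N₀ : ℕ, ∀ n N A D : ℕ, Window n A N → N₀ ≤ N → Real.log N ^ B ≤ D →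
      (AP k D (G n A N) : ℝ) ≤ C * (N * D * V (2 * n) (1 / 4) N ^ k)) ∧
    (∀ δ : ℝ, 0 < δ → ∃ c₀ : ℝ, 0 < c₀ ∧ ∃ B N₀ : ℕ, ∀ n N A D : ℕ, Window n A N →
      N₀ ≤ N → Real.log N ^ B ≤ D → D ≤ N →
      (δ * (N * V (2 * n) (1 / 4) N) ≤ (G n A N).card →
        c₀ * (N * D * V (2 * n) (1 / 4) N ^ k) ≤ AP k D (G n A N)) ∧
      (δ * (N * D * V (2 * n) (1 / 4) N ^ k) ≤ AP k D (G n A N) →
        c₀ * (N * V (2 * n) (1 / 4) N) ≤ (G n A N).card)) := by
  exact Pool.Agent.V11249.NP.Gold.spec (Θ := ℕ) (fun n => 2 * n) Window G V Rough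
    (fun n A N h => ⟨even_two_mul n, by have := h.2; omega⟩) (fun n A N h _ => eqG n A N h)
    (fun M κ N => Pool.Agent.V11249.NP.Gold.V_two M κ N) (fun M κ N n h => h) k hk

end Pool.Agent.Results.MP_73b532_nt.ProgressionsOfRepresentations
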