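import Pool.Agent.Y879.GL.Prog2

set_option autoImplicit false

/-!
# Regular Goldbach representations, in arbitrary sets and in residue classes

Let `n` be even, and let `S` be an ARBITRARY set of integers `x` for which neither `p = q x + a` nor
`n - p` has a prime factor `≤ n ^ (1 / r)`; for example the set of all `x` for which `p` and `n - p` are
primes, or any subset of it. Let `V` be the density of all the `x` with this property and `L = 1 / V`. In
every interval `(u, u + Y]`, `n ^ θ ≤ Y ≤ min (u, n)`, all but at most `ε Y V` of the elements `x` of `S`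
are regular: all intervals `(x - s, x + t]` with `s, t ≤ Y` of length at least `L / c` contain between
`c (s + t) / L` and `(s + t) / (c L)` elements of `S`; and at all but a bounded number of scales
`2 ^ j ∈ [L, Y]` the set `S` has a constant density around `x`, up to `δ`.
-/

namespace Pool.Agent.Results.MP_73b532_nt.RegularRepresentations

open Finset Filter

/-- Neither `m` nor `n - m` has a prime factor `p ≤ n ^ (1 / r)`. -/
def Good (n r m : ℕ) : Prop :=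
  ∀ p : ℕ, p.Prime → (p : ℝ) ≤ (n : ℝ) ^ (1 / (r : ℝ)) → ¬ p ∣ m ∧ ¬ (p : ℤ) ∣ (n : ℤ) - m

open Classical in
/-- The number of the elements of `S` in `(a, b]`. -/
noncomputable def Nr (S : Set ℕ) (a b : ℕ) : ℕ := ((Finset.Ioc a b).filter (fun m => m ∈ S)).card

/-- All intervals `(x - s, x + t]`, `s, t ≤ Y`, of length at least `L / c` contain the right order of
elements of `S`. -/
def RightOrder (S : Set ℕ) (L c : ℝ) (Y x : ℕ) : Prop :=
  ∀ s t : ℕ, s ≤ Y → t ≤ Y → L ≤ c * (s + t) →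
    c * (s + t) / L ≤ Nr S (x - s) (x + t) ∧ (Nr S (x - s) (x + t) : ℝ) ≤ (s + t) / (c * L)

/-- Up to `δ`, `S` has a constant density on both sides of `x` up to the distance `2 ^ j`. -/
def ConstantDensity (S : Set ℕ) (L c δ : ℝ) (x j : ℕ) : Prop :=
  ∃ lam : ℝ, c ≤ lam ∧ lam ≤ 1 / c ∧ ∀ s t : ℕ, s ≤ 2 ^ j → t ≤ 2 ^ j →
    |(Nr S (x - s) (x + t) : ℝ) - lam * (s + t) / L| ≤ δ * 2 ^ j / L

open Classical in
/-- The number of the scales `L ≤ 2 ^ j ≤ Y` without this property. -/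
noncomputable def badScales (S : Set ℕ) (L c δ : ℝ) (Y x : ℕ) : ℕ :=
  ((Finset.range (Nat.log 2 Y + 1)).filter (fun j => L ≤ (2 : ℝ) ^ j ∧
    ¬ ConstantDensity S L c δ x j)).card

/-- The elements of `S` that are not regular. -/
def Irregular (S : Set ℕ) (L c δ : ℝ) (B Y : ℕ) : Set ℕ :=
  {x | x ∈ S ∧ ¬ (RightOrder S L c Y x ∧ badScales S L c δ Y x ≤ B)}

open Classical in
/-- The density: the product over the primes `p ≤ n ^ (1 / r)` which do not divide `q` of `1 - 1 / p` if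
`p` divides `n` and of `1 - 2 / p` otherwise. -/
noncomputable def V (n q r : ℕ) : ℝ :=
  ∏ p ∈ (Icc 1 ⌊(n : ℝ) ^ (1 / (r : ℝ))⌋₊).filter (fun p => p.Prime ∧ ¬ p ∣ q),
    (1 - (if p ∣ n then 1 else 2) / (p : ℝ))

open Pool.Agent.W123.RP Pool.Agent.H373R2.T7 Pool.Agent.W123.RU Pool.Agent.W123.RU.Poly
open Pool.Agent.TH464.PW Pool.Agent.TH464.PO Pool.Agent.Y879.AP Pool.Agent.Y879.GL

lemma good_iff (n r q a m : ℕ) :
    Sf (Q (pf (-1) (n : ℤ) q a)) ⌊(n : ℝ) ^ (1 / (r : ℝ))⌋₊ m ↔ Good n r (q * m + a) := by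
  have h0 : (0 : ℝ) ≤ (n : ℝ) ^ (1 / (r : ℝ)) := by positivity
  have key : ∀ p : ℕ, p.Prime → (Q (pf (-1) (n : ℤ) q a) p m ↔
      (p ∣ q * m + a ∨ (p : ℤ) ∣ (n : ℤ) - ((q * m + a : ℕ) : ℤ))) := by
    intro p hp
    rw [pf_Q _ _ _ _ _ _ hp]
    unfold Q2
    rw [(Nat.prime_iff_prime_int.1 hp).dvd_mul, Int.natCast_dvd_natCast,
      show (-1 : ℤ) * ((q * m + a : ℕ) : ℤ) + n = (n : ℤ) - ((q * m + a : ℕ) : ℤ) by ring]
  constructor
  · intro h p hp hpX
    have h1 := h p (mem_pz.2 ⟨Nat.le_floor hpX, hp⟩)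
    rwa [key p hp, not_or] at h1
  · intro h p hp
    obtain ⟨h1, h2⟩ := mem_pz.1 hp
    rw [key p h2, not_or]
    exact h p h2 ((Nat.le_floor_iff h0).1 h1)

lemma V_eq (n q r : ℕ) :
    Vq (Qn (Q2 (-1) (n : ℤ)) q) ⌊(n : ℝ) ^ (1 / (r : ℝ))⌋₊ = V n q r := by
  classical
  unfold Vq V pz
  rw [show (Icc 1 ⌊(n : ℝ) ^ (1 / (r : ℝ))⌋₊).filter (fun p => p.Prime ∧ ¬ p ∣ q) =
    ((Icc 1 ⌊(n : ℝ) ^ (1 / (r : ℝ))⌋₊).filter Nat.Prime).filter (fun p => ¬ p ∣ q) by
      rw [Finset.filter_filter]]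
  conv_rhs => rw [Finset.prod_filter]
  apply Finset.prod_congr rfl
  intro p hp
  have hpp : p.Prime := (mem_filter.1 hp).2
  by_cases h : p ∣ q
  · rw [nuB_Qn_dvd _ _ _ h, if_neg (not_not.2 h)]
    simp
  · rw [nuB_Qn_not _ _ _ h, if_pos h, nuB_Q2 _ _ (by norm_num) _ hpp]
    unfold nu2
    simp only [Int.natCast_dvd_natCast]
    split_ifs <;> norm_num

/-- **Regular Goldbach representations.** For all `θ > 0` there is `r₀` such that for `r ≥ r₀` and `ε > 0`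
there is `c > 0`, and for `δ > 0` there is `B`, such that for all large even `n`, all `q, a ≤ n` with `q`
prime to `a (n - a)`, all `(u, u + Y]` with `n ^ θ ≤ Y ≤ min (u, n)` and ALL sets `S` of integers `x` with
`q x + a` good: at most `ε Y V` elements of `S` in `(u, u + Y]` are irregular. -/
theorem result (θ : ℝ) (hθ : 0 < θ) :
    ∃ r₀ : ℕ, 2 ≤ r₀ ∧ ∀ r : ℕ, r₀ ≤ r → ∀ ε : ℝ, 0 < ε → ∃ c : ℝ, 0 < c ∧
      ∀ δ : ℝ, 0 < δ → ∃ B n₀ : ℕ, ∀ n : ℕ, n₀ ≤ n → Even n → ∀ q a : ℕ, 1 ≤ q → q ≤ n → a ≤ n →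
      Nat.Coprime q a → IsCoprime (q : ℤ) ((n : ℤ) - a) →
      ∀ u Y : ℕ, (n : ℝ) ^ θ ≤ Y → Y ≤ n → Y ≤ u →
      ∀ S : Set ℕ, (∀ x ∈ S, Good n r (q * x + a)) →
        (Nr (Irregular S (1 / V n q r) c δ B Y) u (u + Y) : ℝ) ≤ ε * (Y * V n q r) := by
  classical
  obtain ⟨r0, hr0, h0⟩ := prog2_her 1 θ one_pos hθ
  refine ⟨r0, hr0, ?_⟩
  intro r hr ε hε
  obtain ⟨c, hc, h1⟩ := h0 r hr ε hε
  refine ⟨c, hc, ?_⟩
  intro δ hδ
  obtain ⟨B, hB⟩ := h1 δ hδ
  obtain ⟨n0, hn0⟩ := eventually_atTop.1 hB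
  refine ⟨B, max n0 1, ?_⟩
  intro n hn hev q a hq1 hqn han hqa hqf u Y hY hYn hYu S hS
  have hn1 : 1 ≤ n := (le_max_right _ _).trans hn
  have h2 := hn0 n ((le_max_left _ _).trans hn) (-1) (n : ℤ) q a (by norm_num)
    ((Int.even_coe_nat n).2 hev) (by exact_mod_cast (by omega : n ≠ 0))
    (by rw [Int.cast_natCast, abs_of_nonneg (Nat.cast_nonneg _), Real.rpow_one])
    hq1 (by rw [Real.rpow_one]; exact_mod_cast hqn) (by rw [Real.rpow_one]; exact_mod_cast han) hqa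
    (by
      rw [show (-1 : ℤ) * a + n = (n : ℤ) - a by ring]
      exact hqf) u Y hY hYn hYu S (fun x hx => (good_iff n r q a x).2 (hS x hx))
  rw [V_eq] at h2
  exact h2

end Pool.Agent.Results.MP_73b532_nt.RegularRepresentations
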